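import Pool.Agent.Lib.MP_37d555_gt.FinalA
import Pool.Agent.Lib.MP_37d555_gt.Gauge
import Pool.Agent.Lib.MP_37d555_gt.Proj
import Pool.Agent.Lib.MP_37d555_gt.Wulff
import Pool.Agent.Lib.MP_37d555_gt.Half
import Pool.Agent.Lib.MP_37d555_gt.Sign
import Pool.Agent.Lib.MP_37d555_gt.Smooth
import Pool.Agent.Lib.MP_37d555_gt.Symm
import Pool.Agent.Lib.MP_37d555_gt.Pyth
import Pool.Agent.Lib.MP_37d555_gt.Ell

/-!
# MP_37d555_gt: a centered convex body whose projection body is homothetic to its polar is an ellipsoid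
-/

set_option autoImplicit false

open MeasureTheory Module

namespace Pool.Agent.Results.MP_37d555_gt.ProjectionBody

/-- A convex body: a compact convex set with nonempty interior. -/
structure IsBody {n : ℕ} (K : Set (EuclideanSpace ℝ (Fin n))) : Prop where
  compact : IsCompact K
  convex : Convex ℝ K
  int : (interior K).Nonempty

/-- The support function `h_L(u) = sup {⟪y, u⟫ : y ∈ L}`. -/
noncomputable def supp {n : ℕ} (L : Set (EuclideanSpace ℝ (Fin n))) (u : EuclideanSpace ℝ (Fin n)) : ℝ :=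
  sSup ((fun y => (inner ℝ y u : ℝ)) '' L)

/-- The coordinates of the orthogonal projection of `x` onto the span of the orthonormal family `e`. -/
noncomputable def coords {n : ℕ} (e : Fin (n - 1) → EuclideanSpace ℝ (Fin n)) (x : EuclideanSpace ℝ (Fin n)) :
    EuclideanSpace ℝ (Fin (n - 1)) :=
  WithLp.toLp 2 (fun i => (inner ℝ (e i) x : ℝ))

/-- `L` is the projection body of `K`: the convex body whose support function is, for every unit vector `u`, the
Lebesgue measure `λ_{n-1}(K | u^⊥)`, computed in any orthonormal basis `e` of `u^⊥`. -/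
def IsProjBody {n : ℕ} (L K : Set (EuclideanSpace ℝ (Fin n))) : Prop :=
  IsBody L ∧ ∀ u : EuclideanSpace ℝ (Fin n), ‖u‖ = 1 → ∀ e : Fin (n - 1) → EuclideanSpace ℝ (Fin n),
    Orthonormal ℝ e → (∀ i, (inner ℝ (e i) u : ℝ) = 0) → supp L u = (volume (coords e '' K)).toReal

/-- The polar body. -/
def polar {n : ℕ} (K : Set (EuclideanSpace ℝ (Fin n))) : Set (EuclideanSpace ℝ (Fin n)) :=
  {x | ∀ y ∈ K, (inner ℝ x y : ℝ) ≤ 1}

/-- `L = x + lam M` for some point `x` and some `lam > 0`. -/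
def Homothetic {n : ℕ} (L M : Set (EuclideanSpace ℝ (Fin n))) : Prop :=
  ∃ (x : EuclideanSpace ℝ (Fin n)) (lam : ℝ), 0 < lam ∧ L = (fun y => x + lam • y) '' M

open Pool.Agent.Lib.MP_37d555_gt

theorem vol_haus (m : ℕ) : ∃ κ : ℝ, 0 < κ ∧ ∀ (d : ℝ), d = m → ∀ T : Set (EuclideanSpace ℝ (Fin m)),
    (volume T).toReal = κ * (Measure.hausdorffMeasure d T).toReal := by
  have hfr : ((finrank ℝ (EuclideanSpace ℝ (Fin m)) : ℕ) : ℝ) = m := by
    rw [finrank_euclideanSpace_fin]
  have h1 : (Measure.hausdorffMeasure (m : ℝ) :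
      Measure (EuclideanSpace ℝ (Fin m))).IsAddHaarMeasure := by
    rw [← hfr]
    infer_instance
  have h2 := Measure.isAddLeftInvariant_eq_smul
    (volume : Measure (EuclideanSpace ℝ (Fin m))) (Measure.hausdorffMeasure (m : ℝ))
  refine ⟨(Measure.addHaarScalarFactor (volume : Measure (EuclideanSpace ℝ (Fin m)))
    (Measure.hausdorffMeasure (m : ℝ)) : ℝ), ?_, ?_⟩
  · exact_mod_cast Measure.addHaarScalarFactor_pos_of_isAddHaarMeasure _ _
  · rintro d rfl T
    conv_lhs => rw [h2]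
    rw [Measure.smul_apply, ENNReal.smul_def, smul_eq_mul, ENNReal.toReal_mul, ENNReal.coe_toReal]

/-- an orthonormal family `e` orthogonal to the unit vector `u` computes `x - ⟪x, u⟫ u` -/
theorem proj_eq {n : ℕ} (hn : 1 ≤ n) {u : EuclideanSpace ℝ (Fin n)} (hu : ‖u‖ = 1)
    {e : Fin (n - 1) → EuclideanSpace ℝ (Fin n)} (he : Orthonormal ℝ e)
    (heu : ∀ i, (inner ℝ (e i) u : ℝ) = 0) (x : EuclideanSpace ℝ (Fin n)) :
    x - (inner ℝ x u : ℝ) • u = ∑ i, (inner ℝ (e i) x : ℝ) • e i := by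
  let w : Option (Fin (n - 1)) → EuclideanSpace ℝ (Fin n) := fun o => o.elim u e
  have hw : Orthonormal ℝ w := by
    rw [orthonormal_iff_ite]
    rw [orthonormal_iff_ite] at he
    rintro (_ | i) (_ | j)
    · simp [w, hu]
    · simp only [w, Option.elim_none, Option.elim_some]
      rw [real_inner_comm, heu j]
      simp
    · simp only [w, Option.elim_none, Option.elim_some]
      rw [heu i]
      simp
    · simp only [w, Option.elim_some, Option.some.injEq]
      exact he i j
  have hcard : Fintype.card (Option (Fin (n - 1))) = finrank ℝ (EuclideanSpace ℝ (Fin n)) := by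
    rw [finrank_euclideanSpace_fin, Fintype.card_option, Fintype.card_fin]
    omega
  let b := (basisOfOrthonormalOfCardEqFinrank hw hcard).toOrthonormalBasis (by
    rw [coe_basisOfOrthonormalOfCardEqFinrank]; exact hw)
  have hb : ∀ o, b o = w o := by
    intro o
    simp [b]
  have h1 := b.sum_repr' x
  simp only [hb] at h1
  rw [Fintype.sum_option] at h1
  have h2 : (inner ℝ (w none) x : ℝ) • w none + ∑ i, (inner ℝ (w (some i)) x : ℝ) • w (some i) = x := h1
  have h3 : (inner ℝ u x : ℝ) • u + ∑ i, (inner ℝ (e i) x : ℝ) • e i = x := h2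
  rw [real_inner_comm]
  rw [sub_eq_iff_eq_add']
  exact h3.symm

theorem isometry_of {n : ℕ} {e : Fin (n - 1) → EuclideanSpace ℝ (Fin n)} (he : Orthonormal ℝ e) :
    Isometry (fun y : EuclideanSpace ℝ (Fin (n - 1)) => ∑ i, y i • e i) := by
  refine Isometry.of_dist_eq fun y z => ?_
  rw [dist_eq_norm, dist_eq_norm, ← Finset.sum_sub_distrib]
  have h1 : ∀ i, y i • e i - z i • e i = (y - z) i • e i := by
    intro i
    rw [← sub_smul]
    rfl
  simp only [h1]
  have h2 := he.inner_sum (fun i => (y - z) i) (fun i => (y - z) i) Finset.univ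
  rw [real_inner_self_eq_norm_sq] at h2
  have h3 : ‖y - z‖ ^ 2 = ∑ i, (y - z) i * (y - z) i := by
    rw [EuclideanSpace.norm_sq_eq]
    refine Finset.sum_congr rfl fun i _ => ?_
    rw [Real.norm_eq_abs, sq_abs, sq]
  have h4 : ‖∑ i, (y - z) i • e i‖ ^ 2 = ‖y - z‖ ^ 2 := by
    rw [h3]
    simpa using h2
  exact (sq_eq_sq₀ (norm_nonneg _) (norm_nonneg _)).mp h4

theorem shadow_eq (n : ℕ) (hn : 1 ≤ n) : ∃ κ : ℝ, 0 < κ ∧ ∀ (K : Set (EuclideanSpace ℝ (Fin n)))
    (u : EuclideanSpace ℝ (Fin n)), ‖u‖ = 1 → ∀ e : Fin (n - 1) → EuclideanSpace ℝ (Fin n),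
    Orthonormal ℝ e → (∀ i, (inner ℝ (e i) u : ℝ) = 0) → (volume (coords e '' K)).toReal = κ *
      (Measure.hausdorffMeasure ((n : ℝ) - 1)
        ((fun x : EuclideanSpace ℝ (Fin n) => x - (inner ℝ x u : ℝ) • u) '' K)).toReal := by
  obtain ⟨κ, hκ, h⟩ := vol_haus (n - 1)
  refine ⟨κ, hκ, fun K u hu e he heu => ?_⟩
  have hd : (n : ℝ) - 1 = ((n - 1 : ℕ) : ℝ) := by
    rw [Nat.cast_sub hn, Nat.cast_one]
  have hd0 : (0 : ℝ) ≤ (n : ℝ) - 1 := by rw [hd]; positivity
  rw [h _ hd]
  congr 2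
  rw [← (isometry_of he).hausdorffMeasure_image (Or.inl hd0), Set.image_image]
  congr 1
  refine Set.image_congr fun x _ => ?_
  rw [proj_eq hn hu he heu x]
  rfl

/-- orthonormal bases of the orthogonal complement exist -/
theorem exists_frame {n : ℕ} (hn : 1 ≤ n) {u : EuclideanSpace ℝ (Fin n)} (hu : ‖u‖ = 1) :
    ∃ e : Fin (n - 1) → EuclideanSpace ℝ (Fin n), Orthonormal ℝ e ∧ ∀ i, (inner ℝ (e i) u : ℝ) = 0 := by
  have hfr : finrank ℝ (Submodule.span ℝ {u})ᗮ = n - 1 := by
    have : Fact (finrank ℝ (EuclideanSpace ℝ (Fin n)) = (n - 1) + 1) :=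
      ⟨by rw [finrank_euclideanSpace_fin]; omega⟩
    exact Submodule.finrank_orthogonal_span_singleton (by
      intro h0
      rw [h0, norm_zero] at hu
      exact zero_ne_one hu)
  let b := (stdOrthonormalBasis ℝ (Submodule.span ℝ {u})ᗮ).reindex (finCongr hfr)
  refine ⟨fun i => (b i : EuclideanSpace ℝ (Fin n)), ?_, fun i => ?_⟩
  · exact b.orthonormal.comp_linearIsometry (Submodule.span ℝ {u})ᗮ.subtypeₗᵢ
  · have h1 := (b i).2
    rw [Submodule.mem_orthogonal'] at h1
    exact h1 u (Submodule.mem_span_singleton_self u)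

/-- **Full positive answer.** For `n ≥ 3`, a centered convex body whose projection body is homothetic to its polar
body is an ellipsoid. -/
theorem result (n : ℕ) (hn : 3 ≤ n) (K L : Set (EuclideanSpace ℝ (Fin n))) (hK : IsBody K)
    (hsym : K = -K) (hL : IsProjBody L K) (hom : Homothetic L (polar K)) :
    ∃ (A : EuclideanSpace ℝ (Fin n) ≃ₗ[ℝ] EuclideanSpace ℝ (Fin n)) (v : EuclideanSpace ℝ (Fin n)),
      K = (fun x => A x + v) '' Metric.closedBall 0 1 := by
  obtain ⟨κ, hκ, hsh⟩ := shadow_eq n (by omega)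
  obtain ⟨⟨hLc, hLv, hLi⟩, hL'⟩ := hL
  have hLs : ∀ u : EuclideanSpace ℝ (Fin n), ‖u‖ = 1 → supp L u = κ *
      (Measure.hausdorffMeasure ((n : ℝ) - 1)
        ((fun x : EuclideanSpace ℝ (Fin n) => x - (inner ℝ x u : ℝ) • u) '' K)).toReal := by
    intro u hu
    obtain ⟨e, he, heu⟩ := exists_frame (by omega) hu
    rw [hL' u hu e he heu, hsh K u hu e he heu]
  obtain ⟨x, lam, hlam, hLx⟩ := hom
  have hLne : L.Nonempty := hLi.mono interior_subset
  have hbdd : ∀ u : EuclideanSpace ℝ (Fin n), BddAbove ((fun y => (inner ℝ y u : ℝ)) '' L) := fun u =>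
    (hLc.image (by fun_prop)).bddAbove
  -- the body is the intersection of its supporting half-spaces
  have hmem : ∀ z : EuclideanSpace ℝ (Fin n), z ∈ L ↔
      ∀ u : EuclideanSpace ℝ (Fin n), ‖u‖ = 1 → (inner ℝ z u : ℝ) ≤ κ *
      (Measure.hausdorffMeasure ((n : ℝ) - 1)
        ((fun x : EuclideanSpace ℝ (Fin n) => x - (inner ℝ x u : ℝ) • u) '' K)).toReal := by
    intro z
    constructor
    · intro hz u hu
      rw [← hLs u hu]
      exact le_csSup (hbdd u) ⟨z, hz, rfl⟩
    · intro hz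
      by_contra hzL
      obtain ⟨f, s, hf, hs⟩ := geometric_hahn_banach_closed_point hLv hLc.isClosed hzL
      obtain ⟨w, hw⟩ : ∃ w : EuclideanSpace ℝ (Fin n), ∀ y, f y = inner ℝ y w := by
        refine ⟨(InnerProductSpace.toDual ℝ (EuclideanSpace ℝ (Fin n))).symm f, fun y => ?_⟩
        rw [real_inner_comm, InnerProductSpace.toDual_symm_apply]
      have hw0 : w ≠ 0 := by
        rintro rfl
        obtain ⟨y, hy⟩ := hLne
        have h1 := hf y hy
        rw [hw, inner_zero_right] at h1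
        rw [hw, inner_zero_right] at hs
        linarith
      have hwn : 0 < ‖w‖ := norm_pos_iff.mpr hw0
      have hu1 : ‖(‖w‖⁻¹ • w)‖ = 1 := by
        rw [norm_smul, norm_inv, norm_norm, inv_mul_cancel₀ hwn.ne']
      have h1 := hz _ hu1
      rw [← hLs _ hu1] at h1
      have h2 : supp L (‖w‖⁻¹ • w) ≤ ‖w‖⁻¹ * s := by
        refine csSup_le (hLne.image _) ?_
        rintro _ ⟨y, hy, rfl⟩
        have h3 := (hf y hy).le
        rw [hw] at h3
        show (inner ℝ y (‖w‖⁻¹ • w) : ℝ) ≤ _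
        rw [inner_smul_right]
        exact mul_le_mul_of_nonneg_left h3 (by positivity)
      have h4 : ‖w‖⁻¹ * s < inner ℝ z (‖w‖⁻¹ • w) := by
        rw [hw] at hs
        rw [inner_smul_right]
        exact mul_lt_mul_of_pos_left hs (by positivity)
      linarith
  refine (fun h => ?_) (assemble specGauge specProj specWulff (specSign specHalf) specSmooth specSymm specPyth
    specEll n hn K hK.compact hK.convex hK.int (fun y hy => by
      have hy' : y ∈ -K := hsym ▸ hy
      simpa using hy')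
    ⟨lam / κ, div_pos hlam hκ, κ⁻¹ • x, ?_⟩)
  · obtain ⟨A, v, hA⟩ := h
    exact ⟨A.toLinearEquiv, v, hA⟩
  · ext y
    have hiff : (∀ u : EuclideanSpace ℝ (Fin n), ‖u‖ = 1 → (inner ℝ y u : ℝ) ≤
        (Measure.hausdorffMeasure ((n : ℝ) - 1)
          ((fun x : EuclideanSpace ℝ (Fin n) => x - (inner ℝ x u : ℝ) • u) '' K)).toReal) ↔ κ • y ∈ L := by
      rw [hmem]
      refine forall_congr' fun u => forall_congr' fun hu => ?_
      rw [inner_smul_left]
      exact (mul_le_mul_iff_right₀ hκ).symm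
    simp only [Set.mem_ofPred_eq]
    rw [hiff, hLx]
    constructor
    · rintro ⟨p, hp, hpe⟩
      refine ⟨p, fun q hq => by rw [real_inner_comm]; exact hp q hq, ?_⟩
      have h5 : κ • y = x + lam • p := hpe.symm
      have h6 : y = κ⁻¹ • (x + lam • p) := by
        rw [← h5, smul_smul, inv_mul_cancel₀ hκ.ne', one_smul]
      show (lam / κ) • p + κ⁻¹ • x = y
      rw [h6, smul_add, smul_smul, div_eq_inv_mul, add_comm]
    · rintro ⟨p, hp, hpe⟩
      refine ⟨p, fun q hq => by rw [real_inner_comm]; exact hp q hq, ?_⟩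
      have h5 : (lam / κ) • p + κ⁻¹ • x = y := hpe
      show x + lam • p = κ • y
      rw [← h5, smul_add, smul_smul, smul_smul, mul_inv_cancel₀ hκ.ne', one_smul, mul_div_cancel₀ _ hκ.ne',
        add_comm]

end Pool.Agent.Results.MP_37d555_gt.ProjectionBody
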